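import Pool.Agent.Helper89.Vol.Goals

/-! # MP_cd13d2_co, project V36, packet COV1 (helper62) -/

set_option autoImplicit false

namespace Pool.Agent.Helper62.Vol.PkCOV1

open MeasureTheory Set Pool.Agent.Helper86.Poly Pool.Agent.Helper89.Vol

/-- the convex weights of `p` -/
def Lam (x : Fin 6 → E 3) (p : E 3) : Set (Fin 6 → ℝ) :=
  {w | (∀ k, 0 ≤ w k) ∧ ∑ k, w k = 1 ∧ ∑ k, w k • x k = p}

theorem lam_hull {x : Fin 6 → E 3} {p : E 3} {w : Fin 6 → ℝ} (hw : w ∈ Lam x p)
    (S : Set (Fin 6)) (hS : ∀ k, w k ≠ 0 → k ∈ S) : p ∈ convexHull ℝ (x '' S) := by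
  classical
  obtain ⟨h0, h1, h2⟩ := hw
  have e1 : ∑ k ∈ Finset.univ.filter (fun k => w k ≠ 0), w k = 1 := by
    rw [Finset.sum_filter_ne_zero, h1]
  have e2 : ∑ k ∈ Finset.univ.filter (fun k => w k ≠ 0), w k • x k = p := by
    rw [← h2, Finset.sum_filter]
    refine Finset.sum_congr rfl fun k _ => ?_
    split_ifs with h
    · rfl
    · rw [not_not] at h
      rw [h, zero_smul]
  rw [← e2]
  refine (convex_convexHull ℝ (x '' S)).sum_mem (fun k _ => h0 k) e1 fun k hk => ?_
  exact subset_convexHull ℝ _ ⟨k, hS k (Finset.mem_filter.1 hk).2, rfl⟩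

theorem lam_nonempty {x : Fin 6 → E 3} {p : E 3} (hp : p ∈ convexHull ℝ (range x)) :
    ∃ w, w ∈ Lam x p := by
  have h := convexHull_range_eq_exists_affineCombination (R := ℝ) x
  rw [h] at hp
  obtain ⟨s, w, h0, h1, h2⟩ := hp
  classical
  refine ⟨fun k => if k ∈ s then w k else 0, fun k => ?_, ?_, ?_⟩
  · show 0 ≤ (if k ∈ s then w k else 0)
    split_ifs with hk
    · exact h0 k hk
    · exact le_refl _
  · rw [Finset.sum_ite_mem, Finset.univ_inter, h1]
  · rw [← h2, s.affineCombination_eq_linear_combination x w h1]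
    simp only [ite_smul, zero_smul]
    rw [Finset.sum_ite_mem, Finset.univ_inter]

theorem lam_compact (x : Fin 6 → E 3) (p : E 3) : IsCompact (Lam x p) := by
  have h1 : IsCompact (stdSimplex ℝ (Fin 6)) := isCompact_stdSimplex ℝ (Fin 6)
  have h2 : Lam x p = stdSimplex ℝ (Fin 6) ∩ {w | ∑ k, w k • x k = p} := by
    ext w
    constructor
    · rintro ⟨a, b, c⟩
      exact ⟨⟨a, b⟩, c⟩
    · rintro ⟨⟨a, b⟩, c⟩
      exact ⟨a, b, c⟩
  rw [h2]
  refine h1.inter_right (isClosed_eq ?_ continuous_const)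
  fun_prop

/-- adding a dependency -/
theorem lam_add {x : Fin 6 → E 3} {p : E 3} {w μ : Fin 6 → ℝ} (hw : w ∈ Lam x p)
    (h1 : ∑ k, μ k = 0) (h2 : ∑ k, μ k • x k = 0) (t : ℝ) (ht : ∀ k, 0 ≤ w k + t * μ k) :
    (fun k => w k + t * μ k) ∈ Lam x p := by
  obtain ⟨a, b, c⟩ := hw
  refine ⟨ht, ?_, ?_⟩
  · rw [Finset.sum_add_distrib, ← Finset.mul_sum, h1, b, mul_zero, add_zero]
  · simp only [add_smul, mul_smul]
    rw [Finset.sum_add_distrib, ← Finset.smul_sum, h2, c, smul_zero, add_zero]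

/-- small steps are possible -/
theorem small {w μ : Fin 6 → ℝ} (h0 : ∀ k, 0 ≤ w k) (h : ∀ k, μ k < 0 → 0 < w k) :
    ∃ t : ℝ, 0 < t ∧ ∀ k, 0 ≤ w k + t * μ k := by
  have h1 : ∀ k : Fin 6, ∃ t : ℝ, 0 < t ∧ ∀ s, 0 < s → s ≤ t → 0 ≤ w k + s * μ k := by
    intro k
    by_cases hk : μ k < 0
    · refine ⟨w k / (-μ k), div_pos (h k hk) (by linarith), fun s hs hs' => ?_⟩
      rw [le_div_iff₀ (by linarith)] at hs'
      linarith
    · refine ⟨1, one_pos, fun s hs _ => ?_⟩
      exact add_nonneg (h0 k) (mul_nonneg hs.le (not_lt.1 hk))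
  choose t ht0 ht using h1
  obtain ⟨k0, -, hk0⟩ := Finset.exists_min_image (Finset.univ : Finset (Fin 6)) t
    ⟨0, Finset.mem_univ _⟩
  exact ⟨t k0, ht0 k0, fun k => ht k (t k0) (ht0 k0) (hk0 k (Finset.mem_univ _))⟩

/-- first order condition at a maximiser -/
theorem fo {x : Fin 6 → E 3} {p : E 3} {w μ : Fin 6 → ℝ} {a b : Fin 6} (hw : w ∈ Lam x p)
    (hmax : ∀ w' ∈ Lam x p, w' a + w' b ≤ w a + w b)
    (h1 : ∑ k, μ k = 0) (h2 : ∑ k, μ k • x k = 0) (h : ∀ k, μ k < 0 → 0 < w k) :
    μ a + μ b ≤ 0 := by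
  obtain ⟨t, ht, ht'⟩ := small hw.1 h
  have := hmax _ (lam_add hw h1 h2 t ht')
  have h3 : t * (μ a + μ b) ≤ 0 := by linarith
  by_contra hc
  push Not at hc
  have := mul_pos ht hc
  linarith

/-- smaller support -/
theorem shrink {x : Fin 6 → E 3} {p : E 3} {w μ : Fin 6 → ℝ} {a b : Fin 6} (hw : w ∈ Lam x p)
    (hmax : ∀ w' ∈ Lam x p, w' a + w' b ≤ w a + w b)
    (h1 : ∑ k, μ k = 0) (h2 : ∑ k, μ k • x k = 0) (h : ∀ k, μ k ≠ 0 → 0 < w k)
    (hμ : ∃ k, μ k ≠ 0) : ∃ w', w' ∈ Lam x p ∧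
      (∀ w'' ∈ Lam x p, w'' a + w'' b ≤ w' a + w' b) ∧ (∀ k, w k = 0 → w' k = 0) ∧
      ∃ k, w k ≠ 0 ∧ w' k = 0 := by
  have e1 := fo hw hmax h1 h2 fun k hk => h k hk.ne
  have e2 := fo (μ := fun k => - μ k) hw hmax (by rw [Finset.sum_neg_distrib, h1, neg_zero])
    (by simp only [neg_smul]; rw [Finset.sum_neg_distrib, h2, neg_zero])
    fun k hk => h k (by
      intro h0
      simp only [h0, neg_zero, lt_self_iff_false] at hk)
  have e3 : μ a + μ b = 0 := by linarith
  have e4 : ∃ k, μ k < 0 := by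
    by_contra hc
    push Not at hc
    obtain ⟨k, hk⟩ := hμ
    exact hk ((Finset.sum_eq_zero_iff_of_nonneg fun k _ => hc k).1 h1 k (Finset.mem_univ _))
  obtain ⟨k0, hk0, hmin⟩ := Finset.exists_min_image
    (Finset.univ.filter (fun k => μ k < 0)) (fun k => w k / (-μ k))
    (by obtain ⟨k, hk⟩ := e4; exact ⟨k, Finset.mem_filter.2 ⟨Finset.mem_univ _, hk⟩⟩)
  have hk0' : μ k0 < 0 := (Finset.mem_filter.1 hk0).2
  set t := w k0 / (-μ k0) with ht
  have ht0 : 0 < t := div_pos (h k0 hk0'.ne) (by linarith)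
  have hge : ∀ k, 0 ≤ w k + t * μ k := by
    intro k
    by_cases hk : μ k < 0
    · have := hmin k (Finset.mem_filter.2 ⟨Finset.mem_univ _, hk⟩)
      rw [le_div_iff₀ (by linarith)] at this
      linarith
    · exact add_nonneg (hw.1 k) (mul_nonneg ht0.le (not_lt.1 hk))
  refine ⟨_, lam_add hw h1 h2 t hge, fun w'' hw'' => ?_, fun k hk => ?_, k0, ?_, ?_⟩
  · have := hmax w'' hw''
    have e5 : (w a + t * μ a) + (w b + t * μ b) = w a + w b := by
      linear_combination t * e3
    linarith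
  · have : μ k = 0 := by
      by_contra hc
      have := h k hc
      linarith
    rw [hk, this, mul_zero, add_zero]
  · exact (h k0 hk0'.ne).ne'
  · have e6 : t * (-μ k0) = w k0 := div_mul_cancel₀ _ (neg_ne_zero.2 hk0'.ne)
    linarith

theorem thm : G_COV1 := by
  classical
  intro x D a b hanti hne hrow hdep hab htw p hp hT
  have hdiag : ∀ i, D i i = 0 := fun i => by
    have := hanti i i
    linarith
  have hdep' : ∀ i, ∑ k, D i k • x k = 0 := by
    intro i
    ext m
    have := hdep i m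
    simpa using this
  -- maximisers
  obtain ⟨w1, hw1⟩ := lam_nonempty hp
  obtain ⟨w2, hw2, hmax2⟩ := (lam_compact x p).exists_isMaxOn ⟨w1, hw1⟩
    (f := fun w : Fin 6 → ℝ => w a + w b) (by fun_prop)
  let Pc : ℕ → Prop := fun c => ∃ w, w ∈ Lam x p ∧
    (∀ w' ∈ Lam x p, w' a + w' b ≤ w a + w b) ∧
    (Finset.univ.filter (fun k => w k ≠ 0)).card = c
  have hex : ∃ c, Pc c := ⟨_, w2, hw2, fun w' hw' => hmax2 hw', rfl⟩
  obtain ⟨w, hw, hmax, hcard⟩ := Nat.find_spec hex
  have hmin : ∀ w' , w' ∈ Lam x p → (∀ w'' ∈ Lam x p, w'' a + w'' b ≤ w' a + w' b) →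
      (Finset.univ.filter (fun k => w k ≠ 0)).card ≤
        (Finset.univ.filter (fun k => w' k ≠ 0)).card := by
    intro w' h1 h2
    rw [hcard]
    exact Nat.find_min' hex ⟨w', h1, h2, rfl⟩
  -- at least two zeros
  have hle : (Finset.univ.filter (fun k => w k ≠ 0)).card ≤ 4 := by
    by_contra hc
    push Not at hc
    have hz : (Finset.univ.filter (fun k => w k = 0)).card ≤ 1 := by
      have : (Finset.univ.filter (fun k => w k = 0)).card +
          (Finset.univ.filter (fun k => w k ≠ 0)).card = 6 :=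
        Finset.card_filter_add_card_filter_not (s := (Finset.univ : Finset (Fin 6)))
          (fun k => w k = 0)
      omega
    obtain ⟨i, hi⟩ : ∃ i, ∀ k, k ≠ i → w k ≠ 0 := by
      by_cases he : ∃ i, w i = 0
      · obtain ⟨i, hi⟩ := he
        refine ⟨i, fun k hk h0 => hk ?_⟩
        exact Finset.card_le_one.1 hz k (by simp [h0]) i (by simp [hi])
      · push Not at he
        exact ⟨0, fun k _ => he k⟩
    have hpos : ∀ k, k ≠ i → 0 < w k := fun k hk =>
      lt_of_le_of_ne (hw.1 k) (hi k hk).symm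
    obtain ⟨j, hj⟩ : ∃ j : Fin 6, j ≠ i := exists_ne i
    obtain ⟨w', g1, g2, g3, k, g4, g5⟩ := shrink (μ := D i) hw hmax (hrow i) (hdep' i)
      (fun k hk => hpos k (by rintro rfl; exact hk (hdiag _))) ⟨j, hne i j hj.symm⟩
    have := hmin w' g1 g2
    have hlt : (Finset.univ.filter (fun k => w' k ≠ 0)).card <
        (Finset.univ.filter (fun k => w k ≠ 0)).card := by
      apply Finset.card_lt_card
      rw [Finset.ssubset_iff_of_subset]
      · exact ⟨k, by simp [g4], by simp [g5]⟩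
      · intro l hl
        simp only [Finset.mem_filter, Finset.mem_univ, true_and] at hl ⊢
        exact fun h0 => hl (g3 l h0)
    omega
  have hge : 4 ≤ (Finset.univ.filter (fun k => w k ≠ 0)).card := by
    by_contra hc
    push Not at hc
    refine hT (Finset.univ.filter (fun k => w k ≠ 0)) (by omega) (lam_hull hw _ ?_)
    intro k hk
    simp [hk]
  have hz : (Finset.univ.filter (fun k => w k = 0)).card = 2 := by
    have : (Finset.univ.filter (fun k => w k = 0)).card +
        (Finset.univ.filter (fun k => w k ≠ 0)).card = 6 :=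
      Finset.card_filter_add_card_filter_not (s := (Finset.univ : Finset (Fin 6)))
        (fun k => w k = 0)
    omega
  obtain ⟨i0, j0, hij0, hzs⟩ := Finset.card_eq_two.1 hz
  -- order the two
  obtain ⟨i, j, hij, hwi, hwj, hpos, hDij⟩ : ∃ i j, i ≠ j ∧ w i = 0 ∧ w j = 0 ∧
      (∀ k, k ≠ i → k ≠ j → 0 < w k) ∧ 0 < D i j := by
    have hwi : w i0 = 0 := by
      have : i0 ∈ Finset.univ.filter (fun k => w k = 0) := by rw [hzs]; simp
      simpa using this
    have hwj : w j0 = 0 := by
      have : j0 ∈ Finset.univ.filter (fun k => w k = 0) := by rw [hzs]; simp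
      simpa using this
    have hpos : ∀ k, k ≠ i0 → k ≠ j0 → 0 < w k := by
      intro k h1 h2
      refine lt_of_le_of_ne (hw.1 k) fun h0 => ?_
      have : k ∈ Finset.univ.filter (fun k => w k = 0) := by simp [h0.symm]
      rw [hzs] at this
      simp at this
      rcases this with h | h
      · exact h1 h
      · exact h2 h
    rcases lt_or_gt_of_ne (hne i0 j0 hij0) with h | h
    · exact ⟨j0, i0, hij0.symm, hwj, hwi, fun k h1 h2 => hpos k h2 h1, by
        rw [hanti]; linarith⟩
    · exact ⟨i0, j0, hij0, hwi, hwj, hpos, h⟩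
  have f1 : D i a + D i b ≤ 0 := by
    refine fo (μ := D i) hw hmax (hrow i) (hdep' i) fun k hk => hpos k ?_ ?_
    · rintro rfl
      rw [hdiag] at hk
      exact lt_irrefl _ hk
    · rintro rfl
      linarith
  have f2 : 0 ≤ D j a + D j b := by
    have := fo (μ := fun k => - D j k) hw hmax
      (by rw [Finset.sum_neg_distrib, hrow, neg_zero])
      (by simp only [neg_smul]; rw [Finset.sum_neg_distrib, hdep', neg_zero])
      (fun k hk => hpos k (by
        rintro rfl
        have := hanti j k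
        linarith) (by
        rintro rfl
        simp only [hdiag, neg_zero, lt_self_iff_false] at hk))
    linarith
  have hia : i ≠ a := by
    rintro rfl
    rw [hdiag] at f1
    linarith
  have hjb : j ≠ b := by
    rintro rfl
    have h1 := htw i hia hij
    have h2 := hanti i a
    have h3 := hanti i j
    nlinarith
  have hja : j ≠ a := by
    rintro rfl
    have hib : i ≠ b := by
      rintro rfl
      have := hanti j i
      linarith
    have h1 := htw i hij hib
    have h2 := hanti i j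
    have h3 := hanti i b
    nlinarith
  have hib : i ≠ b := by
    rintro rfl
    have h1 := htw j hja hjb
    have h2 := hanti j a
    have h3 := hanti j i
    nlinarith
  refine ⟨i, j, hib, ?_, ?_, hDij, lam_hull hw _ fun k hk => ?_⟩
  · have h1 := htw i hia hib
    have h2 := hanti i a
    have h3 := hanti i b
    by_contra hc
    push Not at hc
    nlinarith
  · have h1 := htw j hja hjb
    have h2 := hanti j a
    have h3 := hanti j b
    by_contra hc
    push Not at hc
    nlinarith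
  · constructor
    · rintro rfl
      exact hk hwi
    · rintro rfl
      exact hk hwj

end Pool.Agent.Helper62.Vol.PkCOV1
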